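import Pool.Agent.U160.VP.Poly2
import Pool.Agent.U160.VP.PkgQ

/-!
# Vinogradov's mean value theorem without the epsilon for the sequence `n + {P(n)}`

For almost every real polynomial `P` of degree at least `4s` the conjectured bound, without `N^ε` and with a lower
bound of the same order, holds for the integers perturbed by the fractional parts `{P(n)}` (or by `G({P(n)})` with
a fixed `G` whose values are as small as we like), for all `k`; below the critical exponent there are few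
non-diagonal solutions.
-/

set_option autoImplicit false

namespace Pool.Agent.Results.MP_e21eee_nt.AlmostEveryPolynomial

open MeasureTheory ProbabilityTheory Finset

/-- the fractional part of `x_1 n + x_2 n^2 + ... + x_r n^r` (`x_j` is `x (j-1)`) -/
noncomputable def frac {r : ℕ} (x : Fin r → ℝ) (n : ℕ) : ℝ := Int.fract (∑ j : Fin r, x j * (n : ℝ) ^ (j.val + 1))

open scoped Classical in
/-- the number of pairs of `s`-tuples `x`, `y` in `[1,N]` with
`|∑ (x_i + θ(x_i))^j - ∑ (y_i + θ(y_i))^j| < 1` for `j = 1, ..., k`; for `θ = 0` this is `J_{s,k}(N)` -/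
noncomputable def J (θ : ℕ → ℝ) (s k N : ℕ) : ℕ :=
  (((Fintype.piFinset fun _ : Fin s => Finset.Icc 1 N) ×ˢ (Fintype.piFinset fun _ : Fin s => Finset.Icc 1 N)).filter
    (fun p : (Fin s → ℕ) × (Fin s → ℕ) => ∀ j : Fin k,
      |∑ i : Fin s, ((p.1 i : ℝ) + θ (p.1 i)) ^ (j.val + 1) -
        ∑ i : Fin s, ((p.2 i : ℝ) + θ (p.2 i)) ^ (j.val + 1)| < 1)).card

open scoped Classical in
/-- the number of those pairs for which `y` is not a permutation of `x` -/
noncomputable def nonDiagonal (θ : ℕ → ℝ) (s k N : ℕ) : ℕ :=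
  (((Fintype.piFinset fun _ : Fin s => Finset.Icc 1 N) ×ˢ (Fintype.piFinset fun _ : Fin s => Finset.Icc 1 N)).filter
    (fun p : (Fin s → ℕ) × (Fin s → ℕ) => (∀ j : Fin k,
      |∑ i : Fin s, ((p.1 i : ℝ) + θ (p.1 i)) ^ (j.val + 1) -
        ∑ i : Fin s, ((p.2 i : ℝ) + θ (p.2 i)) ^ (j.val + 1)| < 1) ∧
      ¬ ∃ σ : Equiv.Perm (Fin s), p.2 = p.1 ∘ σ)).card

/-- `J` lies between two positive multiples of `N^s + N^(2s - k(k+1)/2)` for all `N ≥ 1`, and for `s < k(k+1)/2` at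
most a multiple of `N^(s - 1/(4k+2))` of the solutions are not diagonal -/
def Bounds (θ : ℕ → ℝ) (s k : ℕ) : Prop :=
  (∃ c₁ C₁ : ℝ, 0 < c₁ ∧ 0 < C₁ ∧ ∀ N : ℕ, 1 ≤ N →
    c₁ * ((N : ℝ) ^ (s : ℝ) + (N : ℝ) ^ (2 * (s : ℝ) - (k : ℝ) * ((k : ℝ) + 1) / 2)) ≤ (J θ s k N : ℝ) ∧
    (J θ s k N : ℝ) ≤ C₁ * ((N : ℝ) ^ (s : ℝ) + (N : ℝ) ^ (2 * (s : ℝ) - (k : ℝ) * ((k : ℝ) + 1) / 2))) ∧
  (2 * s < k * (k + 1) → ∃ C₂ : ℝ, ∀ N : ℕ, 1 ≤ N →
    (nonDiagonal θ s k N : ℝ) ≤ C₂ * (N : ℝ) ^ ((s : ℝ) - 1 / (4 * k + 2)))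

/-- **Vinogradov's mean value for `n + {P(n)}`, for almost every polynomial `P`.** (1) For almost all
`x ∈ ℝ^r`, with `P(n) = x_1 n + ... + x_r n^r`, the bounds hold for the perturbation `{P(n)}`, for all `s ≤ r/4` and
all `k`. (2) For every `δ > 0` there is a measurable `G` with values in `[0,δ]` such that the same holds for the
perturbation `G({P(n)})`, for all `r`. -/
theorem result :
    (∀ r : ℕ, ∀ᵐ x : Fin r → ℝ, ∀ s k : ℕ, 1 ≤ s → 4 * s ≤ r → 1 ≤ k → Bounds (frac x) s k) ∧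
    (∀ δ : ℝ, 0 < δ → ∃ G : ℝ → ℝ, Measurable G ∧ (∀ u, 0 ≤ G u ∧ G u ≤ δ) ∧
      ∀ r : ℕ, ∀ᵐ x : Fin r → ℝ, ∀ s k : ℕ, 1 ≤ s → 4 * s ≤ r → 1 ≤ k → Bounds (fun n => G (frac x n)) s k) := by
  refine ⟨fun r => ?_, fun δ hδ => ?_⟩
  · filter_upwards [Pool.Agent.U160.VP.main_poly r] with x hx s k hs hr hk
    exact hx s hs hr k hk
  · obtain ⟨ρ, c, hρ, -, h0⟩ := Pool.Agent.U160.VP.t_I δ hδ
    have hp := Pool.Agent.U160.VP.law_prob hρ
    have hν : (Pool.Agent.U160.VP.law ρ) (Set.Icc 0 δ)ᶜ = 0 := by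
      unfold Pool.Agent.U160.VP.law
      rw [withDensity_apply _ measurableSet_Icc.compl, Measure.restrict_restrict measurableSet_Icc.compl,
        setLIntegral_eq_zero_iff (measurableSet_Icc.compl.inter measurableSet_Icc)
          (hρ.meas.ennreal_ofReal)]
      refine Filter.Eventually.of_forall fun u hu => ?_
      have h1 : δ ≤ u := by
        by_contra hcon
        push Not at hcon
        exact hu.1 ⟨hu.2.1, hcon.le⟩
      rw [h0 u h1]
      simp
    obtain ⟨G, hG, hG1, hG2⟩ := Pool.Agent.U160.VP.t_Q (Pool.Agent.U160.VP.law ρ) δ hδ.le hν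
    refine ⟨G, hG, hG1, fun r => ?_⟩
    filter_upwards [Pool.Agent.U160.VP.main_poly2 hρ G hG hG2 r] with x hx s k hs hr hk
    exact hx s hs hr k hk

end Pool.Agent.Results.MP_e21eee_nt.AlmostEveryPolynomial
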