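import Pool.Agent.U536.CF.TU
import Pool.Agent.N733.TG.I
import Pool.Agent.U951.TR.Vino

/-!
# Vinogradov's system has only the trivial solutions for all tuples with large common factors with the values of multiplicative functions

Let `k < s` and let `E = √(4 d s - 2 (d - 1) (d + 2) + 1) + d - 1`, `d = s - k`, be the exponent of the starting theorem
`PaucityLatticeChain`; it is less than `s` if `2 s (s - 1) + 4 < 3 k²`. Let `F_1, …, F_s` be positive multiplicative
functions of at most polynomial growth such that `F_i q ≤ M q` for the large primes `q`, with different values at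
different large primes; for example Euler's function or the sum of the divisors. Let `0 < ρ ≤ 1`, `E < s ρ`, `b < 1` and
`0 ≤ θ < 2 b - 1`. For all tuples `m` in `[1, X] ^ s` but `X ^ s exp (-(log X) ^ θ)`, for EVERY tuple `x` of integers `x_i
≥ exp ((log X) ^ b)` with `gcd(x_i, F_i(m_i)) ≥ x_j ^ ρ` for all `i`, `j`, the system

  `x_1^j + ⋯ + x_s^j = y_1^j + ⋯ + y_s^j`, `1 ≤ j ≤ k`,

has only the trivial solutions `y` in positive integers, the permutations of `x`. The tuples include all tuples of large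
divisors `x_i` of the `F_i(m_i)` with `x_j ^ ρ ≤ x_i`.

Proof. The starting theorem bounds the number of the nontrivial solutions in `[1, X]` by `X ^ (E + ε)`, so this bounds
the number of the exceptional tuples. The tool `Pool.Agent.U536.CF` of helper536 bounds the number of the `m` for which
such an exceptional tuple exists (the number of the ordered factorizations, Hölder's inequality).
-/

set_option autoImplicit false

namespace Pool.Agent.Results.MP_e21eee_nt.CommonFactors

open Pool.Agent.N733.TG (LM lm_totient lm_sigma)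
open Pool.Agent.U536.CF (CommonT avoidT commonT_of_dvd)
open Pool.Agent.U951.TR.Vino (OnlyTrivial expo expo_lt count)

/-- **Theorem.** Let `k ≥ 1`, `k < s`, let `F` be a family of `s` functions in the class `LM`, `0 < ρ ≤ 1`, `E < s ρ`, `b <
1`, `0 ≤ θ < 2 b - 1`. For all large `X`, for all tuples `m` in `[1, X] ^ s` but `X ^ s exp (-(log X) ^ θ)`, for EVERY tuple
`x` of integers `x_i ≥ exp ((log X) ^ b)` with `gcd(x_i, F_i(m_i)) ≥ x_j ^ ρ` for all `i`, `j` (`CommonT`), Vinogradov's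
system of degree `k` with the left sides given by `x` has only the trivial solutions in positive integers. If `2 s (s - 1)
+ 4 < 3 k²`, then `E < s`. Tuples of divisors `x_i ≥ exp ((log X) ^ b)` of the `F_i(m_i)` with `x_j ^ ρ ≤ x_i` for all `i`,
`j` are such tuples. Euler's function and the sum of the divisors are in the class. -/
theorem result :
    (∀ s k : ℕ, 1 ≤ k → k < s → ∀ F : Fin s → ℕ → ℕ, (∀ i, LM (F i)) → ∀ ρ b θ : ℝ, 0 < ρ → ρ ≤ 1 → expo s k < s * ρ →
      b < 1 → 0 ≤ θ → θ < 2 * b - 1 → ∃ X₀ : ℕ, ∀ X : ℕ, X₀ ≤ X →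
        ({m : Fin s → ℕ | (∀ i, 1 ≤ m i ∧ m i ≤ X) ∧ ¬ ∀ x : Fin s → ℕ, CommonT F b ρ X m x → OnlyTrivial s k x}.ncard : ℝ) ≤
          (X : ℝ) ^ s * Real.exp (-(Real.log X ^ θ))) ∧
    (∀ s k : ℕ, k < s → 2 * s * (s - 1) + 4 < 3 * k ^ 2 → expo s k < s) ∧
    (LM Nat.totient ∧ LM (fun m => ∑ d ∈ m.divisors, d)) ∧
    ∀ (s : ℕ) (F : Fin s → ℕ → ℕ) (b ρ : ℝ) (X : ℕ) (m x : Fin s → ℕ), (∀ i, Real.exp (Real.log X ^ b) ≤ (x i : ℝ)) →
      (∀ i, x i ∣ F i (m i)) → (∀ i j, (x j : ℝ) ^ ρ ≤ (x i : ℝ)) → CommonT F b ρ X m x := by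
  refine ⟨fun s k hk hks F hF ρ b θ hρ0 hρ1 hρ hb hθ hθb => ?_, fun s k hks h => expo_lt hks h, ⟨lm_totient, lm_sigma⟩,
    fun s F b ρ X m x h1 h2 h3 => commonT_of_dvd h1 h2 h3⟩
  obtain ⟨ε, hε⟩ : ∃ ε : ℝ, ε = (s * ρ - expo s k) / 2 := ⟨_, rfl⟩
  have hε0 : 0 < ε := by rw [hε]; linarith
  obtain ⟨C, hC⟩ := count hk hks hε0
  obtain ⟨X₀, hX₀⟩ := avoidT (k := s) (c₀ := s - expo s k - ε) (by omega) hF hρ0 hρ1 (by rw [hε]; nlinarith) C hb hθ hθb
  refine ⟨X₀, fun X hX => le_trans (le_of_eq ?_) (hX₀ X hX {w | ¬ OnlyTrivial s k w} (fun Y hY => ?_))⟩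
  · congr 2
    ext m
    simp only [Set.mem_ofPred_eq]
    push Not
    refine and_congr_right fun _ => ⟨?_, ?_⟩
    · rintro ⟨w, hw, h1⟩
      exact ⟨w, h1, hw⟩
    · rintro ⟨w, h1, hw⟩
      exact ⟨w, hw, h1⟩
  · have h1 := hC Y hY
    rw [show (s : ℝ) - (s - expo s k - ε) = expo s k + ε by ring]
    exact h1

end Pool.Agent.Results.MP_e21eee_nt.CommonFactors
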