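import Pool.Agent.U160.VP.Final

/-!
# Vinogradov's mean value theorem without the epsilon for almost every perturbation of the integers

The integers `n` are replaced by `n + θ n` with independent `θ n` in `[0,1]` (the law may be uniform or
concentrated in `[0,δ]` for any `δ > 0`). For almost every `θ` the conjectured bound, without `N^ε` and with a
lower bound of the same order, holds for all `s, k` at once, and below the critical exponent there are few
non-diagonal solutions.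
-/

set_option autoImplicit false

namespace Pool.Agent.Results.MP_e21eee_nt.PerturbedIntegers

open MeasureTheory ProbabilityTheory Finset

open scoped Classical in
/-- the number of pairs of `s`-tuples `x`, `y` in `[1,N]` with
`|∑ (x_i + θ(x_i))^j - ∑ (y_i + θ(y_i))^j| < 1` for `j = 1, ..., k`; for `θ = 0` this is `J_{s,k}(N)` -/
noncomputable def J (θ : ℕ → ℝ) (s k N : ℕ) : ℕ :=
  (((Fintype.piFinset fun _ : Fin s => Finset.Icc 1 N) ×ˢ (Fintype.piFinset fun _ : Fin s => Finset.Icc 1 N)).filter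
    (fun p : (Fin s → ℕ) × (Fin s → ℕ) => ∀ j : Fin k,
      |∑ i : Fin s, ((p.1 i : ℝ) + θ (p.1 i)) ^ (j.val + 1) -
        ∑ i : Fin s, ((p.2 i : ℝ) + θ (p.2 i)) ^ (j.val + 1)| < 1)).card

open scoped Classical in
/-- the number of those pairs for which `y` is not a permutation of `x` -/
noncomputable def nonDiagonal (θ : ℕ → ℝ) (s k N : ℕ) : ℕ :=
  (((Fintype.piFinset fun _ : Fin s => Finset.Icc 1 N) ×ˢ (Fintype.piFinset fun _ : Fin s => Finset.Icc 1 N)).filter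
    (fun p : (Fin s → ℕ) × (Fin s → ℕ) => (∀ j : Fin k,
      |∑ i : Fin s, ((p.1 i : ℝ) + θ (p.1 i)) ^ (j.val + 1) -
        ∑ i : Fin s, ((p.2 i : ℝ) + θ (p.2 i)) ^ (j.val + 1)| < 1) ∧
      ¬ ∃ σ : Equiv.Perm (Fin s), p.2 = p.1 ∘ σ)).card

/-- `ρ` is a probability density on `[0,1]` with the absolutely convergent Fourier series `∑ c_h e(h u)` -/
structure Density (ρ : ℝ → ℝ) (c : ℤ → ℂ) : Prop where
  meas : Measurable ρ
  nonneg : ∀ u, 0 ≤ ρ u
  mass : ∫ u in Set.Icc (0 : ℝ) 1, ρ u = 1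
  summable : Summable fun h : ℤ => ‖c h‖
  expansion : ∀ u ∈ Set.Icc (0 : ℝ) 1,
    (ρ u : ℂ) = ∑' h : ℤ, c h * Complex.exp (2 * (Real.pi : ℂ) * Complex.I * ((h * u : ℝ) : ℂ))

theorem J_eq (θ : ℕ → ℝ) (s k N : ℕ) : J θ s k N = Pool.Agent.U160.VP.J θ s k N := rfl

theorem nonDiagonal_eq (θ : ℕ → ℝ) (s k N : ℕ) : nonDiagonal θ s k N = Pool.Agent.U160.VP.ND θ s k N := rfl

theorem dens {ρ : ℝ → ℝ} {c : ℤ → ℂ} : Density ρ c ↔ Pool.Agent.U160.VP.Dens ρ c :=
  ⟨fun h => ⟨h.1, h.2, h.3, h.4, h.5⟩, fun h => ⟨h.1, h.2, h.3, h.4, h.5⟩⟩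

theorem uniform : Density (fun _ => 1) (fun h => if h = 0 then 1 else 0) := by
  refine ⟨measurable_const, fun _ => zero_le_one, by simp, ?_, ?_⟩
  · apply summable_of_ne_finset_zero (s := {0})
    intro b hb
    simp only [mem_singleton] at hb
    simp [hb]
  · intro u _
    rw [tsum_eq_single 0]
    · simp
    · intro b hb
      simp [hb]

/-- **Vinogradov's mean value for almost every perturbation of the integers.** (1) For `θ = 0` the quantity `J` is
`J_{s,k}(N)`. (2) The constant density satisfies the hypothesis on the density; so do some continuous densities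
which vanish outside `[0,δ]`, for every `δ > 0`. (3) Let `θ 0, θ 1, ...` be independent with such a density. For
almost every choice, for all `s, k ≥ 1`: `J` lies between two positive multiples of `N^s + N^(2s - k(k+1)/2)`, for
all `N ≥ 1`; and if `s < k(k+1)/2`, then at most `C N^(s - 1/(4k+2))` of the solutions are not diagonal. -/
theorem result :
    (∀ s k N : ℕ, J (fun _ => 0) s k N =
      (((Fintype.piFinset fun _ : Fin s => Finset.Icc 1 N) ×ˢ
        (Fintype.piFinset fun _ : Fin s => Finset.Icc 1 N)).filter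
        (fun p : (Fin s → ℕ) × (Fin s → ℕ) =>
          ∀ j : Fin k, ∑ i : Fin s, p.1 i ^ (j.val + 1) = ∑ i : Fin s, p.2 i ^ (j.val + 1))).card) ∧
    (∃ c : ℤ → ℂ, Density (fun _ => 1) c) ∧
    (∀ δ : ℝ, 0 < δ → ∃ (ρ : ℝ → ℝ) (c : ℤ → ℂ), Density ρ c ∧ Continuous ρ ∧ ∀ u : ℝ, δ ≤ u → ρ u = 0) ∧
    ∀ (ρ : ℝ → ℝ) (c : ℤ → ℂ), Density ρ c →
      ∀ (Ω : Type) [MeasurableSpace Ω] (P : Measure Ω) [IsProbabilityMeasure P] (θ : ℕ → Ω → ℝ),
        (∀ n, Measurable (θ n)) → iIndepFun θ P →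
        (∀ n, P.map (θ n) =
          ((volume : Measure ℝ).restrict (Set.Icc 0 1)).withDensity fun u => ENNReal.ofReal (ρ u)) →
        ∀ᵐ ω ∂P, ∀ s k : ℕ, 1 ≤ s → 1 ≤ k →
          (∃ c₁ C₁ : ℝ, 0 < c₁ ∧ 0 < C₁ ∧ ∀ N : ℕ, 1 ≤ N →
            c₁ * ((N : ℝ) ^ (s : ℝ) + (N : ℝ) ^ (2 * (s : ℝ) - (k : ℝ) * ((k : ℝ) + 1) / 2)) ≤
              (J (fun n => θ n ω) s k N : ℝ) ∧
            (J (fun n => θ n ω) s k N : ℝ) ≤
              C₁ * ((N : ℝ) ^ (s : ℝ) + (N : ℝ) ^ (2 * (s : ℝ) - (k : ℝ) * ((k : ℝ) + 1) / 2))) ∧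
          (2 * s < k * (k + 1) → ∃ C₂ : ℝ, ∀ N : ℕ, 1 ≤ N →
            (nonDiagonal (fun n => θ n ω) s k N : ℝ) ≤ C₂ * (N : ℝ) ^ ((s : ℝ) - 1 / (4 * k + 2))) := by
  refine ⟨?_, ⟨_, uniform⟩, ?_, ?_⟩
  · intro s k N
    classical
    unfold J
    congr 1
    ext p
    simp only [mem_filter]
    refine and_congr_right fun _ => forall_congr' fun j => ?_
    have h1 : ∑ i : Fin s, ((p.1 i : ℝ) + 0) ^ (j.val + 1) - ∑ i : Fin s, ((p.2 i : ℝ) + 0) ^ (j.val + 1) =
        ((((∑ i : Fin s, p.1 i ^ (j.val + 1) : ℕ) : ℤ) - ((∑ i : Fin s, p.2 i ^ (j.val + 1) : ℕ) : ℤ) : ℤ) : ℝ) := by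
      push_cast
      simp
    rw [h1, ← Int.cast_abs]
    constructor
    · intro h
      have h2 : |((∑ i : Fin s, p.1 i ^ (j.val + 1) : ℕ) : ℤ) - ((∑ i : Fin s, p.2 i ^ (j.val + 1) : ℕ) : ℤ)| < 1 := by
        exact_mod_cast h
      rw [Int.abs_lt_one_iff] at h2
      exact_mod_cast sub_eq_zero.1 h2
    · intro h
      rw [h]
      simp
  · intro δ hδ
    obtain ⟨ρ, c, h1, h2, h3⟩ := Pool.Agent.U160.VP.t_I δ hδ
    exact ⟨ρ, c, dens.2 h1, h2, h3⟩
  · intro ρ c hρ Ω _ P _ θ hθ hind hlaw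
    exact Pool.Agent.U160.VP.main (dens.1 hρ) Ω P θ hθ hind hlaw

end Pool.Agent.Results.MP_e21eee_nt.PerturbedIntegers
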