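import Pool.Agent.U405.RS.G5
import Pool.Agent.U951.TR.Vino

/-!
# Vinogradov's system has only the trivial solutions for almost all tuples from thin sets

Let `k < s` and let `E = √(4 d s - 2 (d - 1) (d + 2) + 1) + d - 1`, `d = s - k`, be the exponent of the starting theorem
`PaucityLatticeChain`; it is less than `s` if `2 s (s - 1) + 4 < 3 k²`. Let `F_1, …, F_s` be positive multiplicative
functions of at most polynomial growth which for each `a ≥ 1` are injective at the powers `q ^ a` of the large primes and
at most `M q ^ a` there; for example the identity, Euler's function or the sum of the divisors. Let `s τ > E`, `0 < τ ≤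
1`, and let each of the sets `S_1, …, S_s` be a set of shifted primes `q + a_i`, `q ≤ x`, or an interval `(u, u + h]`,
`u ≤ x`, `x ^ τ ≤ h ≤ x`. For all `m` in `S_1 × ⋯ × S_s` but at most `|S_1| ⋯ |S_s| / (log x) ^ U` (any `U`) the
system

  `F_1(m_1)^j + ⋯ + F_s(m_s)^j = y_1^j + ⋯ + y_s^j`, `1 ≤ j ≤ k`,

has only the trivial solutions `y` in positive integers, the permutations of the `F_i(m_i)`. For example, for almost all
tuples of shifted primes `q`, the numbers `φ(q_i)` are determined by the first `k` of their power sums.

Proof. The starting theorem bounds the number of the nontrivial solutions in `[1, X]` by `X ^ (E + ε)`, so this bounds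
the number of the exceptional tuples. The tuples `F_i(m_i)` have density zero or are taken with large and uneven
multiplicities, so that the size of the exceptional set says nothing about them; they are treated by the tool
`Pool.Agent.U405.RS` of helper405 (a thin set has few multiples of each `n ≤ x^δ`, Rankin's method, fibres over slabs).
-/

set_option autoImplicit false

namespace Pool.Agent.Results.MP_e21eee_nt.ThinTuples

open Pool.Agent.U405.RS
open Pool.Agent.U951.TR.Vino (OnlyTrivial expo expo_lt count)

/-- **Theorem.** Let `k ≥ 1`, `k < s`. For all families `F` of `s` functions in the class `PM`, all `0 < c < s - E` and all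
`U`, in the sense of `ThinAll c F U` (with a saving of `(log x)^U`, for almost all `m` in all products of `s` sets, each
one the set of the shifted primes `q + a_i`, `q ≤ x`, or an interval `(u, u + h]`, `u ≤ x`, `x^τ ≤ h ≤ x`, whenever `0 <
τ ≤ 1`, `s τ > s - c`): all `F_i(m_i)` are at least `2` and Vinogradov's system of degree `k` with the left sides given
by the `F_i(m_i)` has only the trivial solutions in positive integers. If `2 s (s - 1) + 4 < 3 k²`, then `E < s`. Euler's
function, the sum of the divisors and the identity are in the class. -/
theorem result :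
    (∀ s k : ℕ, 1 ≤ k → k < s → ∀ F : Fin s → ℕ → ℕ, (∀ i, PM (F i)) → ∀ c : ℝ, 0 < c → c < s - expo s k → ∀ U : ℕ,
      ThinAll c F U (fun (_ : Unit) w => (∀ i, 2 ≤ w i) ∧ OnlyTrivial s k w)) ∧
    (∀ s k : ℕ, k < s → 2 * s * (s - 1) + 4 < 3 * k ^ 2 → expo s k < s) ∧
    (PM Nat.totient ∧ PM (fun m => ∑ d ∈ m.divisors, d) ∧ PM (fun m => m)) := by
  refine ⟨fun s k hk hks F hF c hc hcE U => ?_, fun s k hks h => expo_lt hks h, examplesT⟩
  obtain ⟨C, hC⟩ := count hk hks (ε := s - expo s k - c) (by linarith)
  refine thinAll_two (by omega) hF hc C _ (fun _ X hX => ?_) U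
  have h1 := hC X hX
  rwa [show expo s k + (s - expo s k - c) = (s : ℝ) - c by ring] at h1

end Pool.Agent.Results.MP_e21eee_nt.ThinTuples
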